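import Pool.Agent.Run7.h453.FG.Law

/-! The criteria which follow from the law. -/

set_option autoImplicit false

namespace Pool.Agent.Run7.h453.FG

open Filter Topology Set
open Pool.Agent.N41.RM
open Pool.Agent.Run7.h453.PC

/-- the criterion for the order -/
theorem crit_order {G : ℝ → ℂ} {ρ₀ : ℤ} {c : ℂ}
    (h : Tendsto (fun T : ℝ => G T - (ρ₀ * Real.log T + c)) atTop (𝓝 0)) {o : WithTop ℤ}
    (ho : o = ρ₀) (ρ : ℤ) : List.TFAE [
      o = ρ,
      Tendsto (fun T : ℝ => (G T).re / Real.log T) atTop (𝓝 ρ),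
      ∃ T : ℕ → ℝ, Tendsto T atTop atTop ∧
        Tendsto (fun k => (G (T k)).re / Real.log (T k)) atTop (𝓝 ρ)] := by
  have hre := re_div h
  tfae_have 1 → 2 := by
    intro h7
    rw [ho] at h7
    have h8 : ρ₀ = ρ := by exact_mod_cast h7
    rw [← h8]
    exact hre
  tfae_have 2 → 3 := fun h7 => ⟨fun k => k, tendsto_natCast_atTop_atTop,
    h7.comp tendsto_natCast_atTop_atTop⟩
  tfae_have 3 → 1 := by
    rintro ⟨T, hT, h7⟩
    have h8 := tendsto_nhds_unique (hre.comp hT) h7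
    rw [ho]
    exact_mod_cast h8
  tfae_finish

/-- the criterion for the leading coefficient -/
theorem crit_lead {F : ℂ → ℂ} {x : ℂ} (hmer : MeromorphicAt F x) {ρ₀ : ℤ} {c : ℂ} (hc : c ≠ 0)
    (h1 : meromorphicOrderAt F x = ρ₀) (h2 : meromorphicTrailingCoeffAt F x = c) {G : ℝ → ℂ} {Λ : ℂ}
    (h4 : Tendsto (fun T : ℝ => Complex.exp (G T) / (T : ℂ) ^ ρ₀) atTop
        (𝓝 (Complex.exp (-(ρ₀ * Λ)) / c))) (ρ : ℤ) (B : ℂ) (hB : B ≠ 0) :
    Tendsto (fun s : ℂ => (s - x) ^ (-ρ) * F s) (𝓝[≠] x) (𝓝 B) ↔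
      ∃ T : ℕ → ℝ, Tendsto T atTop atTop ∧
        Tendsto (fun k => Complex.exp (G (T k)) / (T k : ℂ) ^ ρ) atTop
          (𝓝 (Complex.exp (-(ρ * Λ)) / B)) := by
  have hA : Complex.exp (-(ρ₀ * Λ)) / c ≠ 0 := div_ne_zero (Complex.exp_ne_zero _) hc
  constructor
  · intro h7
    obtain ⟨h8, h9⟩ := order_of_lim hmer hB h7
    have h10 : ρ₀ = ρ := by
      rw [h1] at h8
      exact_mod_cast h8
    have h11 : c = B := by rw [← h2, h9]
    subst h10
    rw [← h11]
    exact ⟨fun k => k, tendsto_natCast_atTop_atTop, h4.comp tendsto_natCast_atTop_atTop⟩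
  · rintro ⟨T, hT, h7⟩
    obtain ⟨h8, h9⟩ := iff_c hA (div_ne_zero (Complex.exp_ne_zero _) hB) h4 hT h7
    subst h8
    have h10 : c = B := by
      have e1 := Complex.exp_ne_zero (-((ρ₀ : ℂ) * Λ))
      rw [div_eq_div_iff hc hB] at h9
      exact (mul_left_cancel₀ e1 h9).symm
    rw [← h10]
    exact lim_of_order hmer h1 h2

/-- passage from one function to another one with a given limit of the difference -/
theorem exp_shift {G H : ℝ → ℂ} {κ L : ℂ} {ρ : ℤ}
    (h : Tendsto (fun T : ℝ => H T - (G T + κ)) atTop (𝓝 0))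
    (hG : Tendsto (fun T : ℝ => Complex.exp (G T) / (T : ℂ) ^ ρ) atTop (𝓝 L)) :
    Tendsto (fun T : ℝ => Complex.exp (H T - κ) / (T : ℂ) ^ ρ) atTop (𝓝 L) := by
  have h1 : Tendsto (fun T : ℝ => Complex.exp (H T - (G T + κ))) atTop (𝓝 1) := by
    have := (Complex.continuous_exp.tendsto 0).comp h
    simpa [Function.comp_def] using this
  have h2 := h1.mul hG
  rw [one_mul] at h2
  refine h2.congr fun T => ?_
  rw [mul_div_assoc', ← Complex.exp_add]
  congr 2
  ring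

end Pool.Agent.Run7.h453.FG
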