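import Pool.Agent.Run7.h453.PC.Any

/-! The law at an arbitrary real point for Euler products with `∑ q_v^{-σ}` convergent for `σ > A`. -/

set_option autoImplicit false

namespace Pool.Agent.Run7.h453.FG

open Filter Topology Set
open Pool.Agent.W187.UR (Lam)
open Pool.Agent.W189.ML (om)
open Pool.Agent.N41.RM
open Pool.Agent.Run7.h453.PC

variable {P : Type} {N : ℕ} {q : P → ℝ} {a : P → Fin N → ℂ} {A κ : ℝ}

/-- the data -/
structure EA (A κ : ℝ) (q : P → ℝ) (a : P → Fin N → ℂ) : Prop where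
  one_le : 1 ≤ A
  two_le : ∀ v, 2 ≤ q v
  sum : ∀ σ : ℝ, A < σ → Summable fun v => q v ^ (-σ)
  ha : ∀ v j, ‖a v j‖ ≤ q v ^ κ
  real : ∀ v k, (∑ j, a v j ^ (k + 1)).im = 0

theorem EA.pos (E : EA A κ q a) (v : P) : 0 < q v := by linarith [E.two_le v]

theorem EA.Apos (E : EA A κ q a) : 0 < A := by linarith [E.one_le]

theorem EA.eg (E : EA A κ q a) : EG (κ / A) (fun v => q v ^ A) a where
  two_le := fun v => by
    calc (2 : ℝ) ≤ q v := E.two_le v
      _ = q v ^ (1 : ℝ) := (Real.rpow_one _).symm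
      _ ≤ q v ^ A := Real.rpow_le_rpow_of_exponent_le (by linarith [E.two_le v]) E.one_le
  sum := fun σ hσ => by
    have hA := E.Apos
    refine (E.sum (A * σ) (by nlinarith)).congr fun v => ?_
    rw [← Real.rpow_mul (E.pos v).le]
    congr 1
    ring
  ha := fun v j => by
    have hA := E.Apos
    rw [← Real.rpow_mul (E.pos v).le]
    have : A * (κ / A) = κ := by field_simp
    rw [this]
    exact E.ha v j
  real := E.real

theorem EA.fq_eq (E : EA A κ q a) (x : P × ℕ) : fq (fun v => q v ^ A) x = A * fq q x := by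
  unfold fq
  rw [Real.log_rpow (E.pos x.1)]
  ring

theorem EA.aterm_eq (E : EA A κ q a) (σ₀ γ T : ℝ) (x : P × ℕ) :
    aterm (fun v => q v ^ A) a (σ₀ / A) γ (A * T) x = aterm q a σ₀ γ T x := by
  have hA := E.Apos
  have h1 : A * fq q x / (A * T) = fq q x / T := mul_div_mul_left _ _ hA.ne'
  have h2 : σ₀ / A * (A * fq q x) = σ₀ * fq q x := by field_simp
  unfold aterm cs
  rw [E.fq_eq, h1, h2]

theorem EA.cpow_eq (E : EA A κ q a) (v : P) (s : ℂ) :
    ((q v ^ A : ℝ) : ℂ) ^ (-s) = (q v : ℂ) ^ (-(A * s)) := by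
  have h0 := E.pos v
  have hq : ((q v : ℝ) : ℂ) ≠ 0 := by exact_mod_cast h0.ne'
  have hq2 : ((q v ^ A : ℝ) : ℂ) ≠ 0 := by
    have : (0 : ℝ) < q v ^ A := Real.rpow_pos_of_pos h0 _
    exact_mod_cast this.ne'
  rw [Complex.cpow_def_of_ne_zero hq, Complex.cpow_def_of_ne_zero hq2, ← Complex.ofReal_log
    (Real.rpow_pos_of_pos h0 _).le, Real.log_rpow h0, ← Complex.ofReal_log h0.le]
  congr 1
  push_cast
  ring

variable {F : ℂ → ℂ}

theorem EA.prod_eq (E : EA A κ q a)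
    (hF : ∀ s : ℂ, A + κ < s.re → F s = ∏' v, ∏ j, (1 - a v j * (q v : ℂ) ^ (-s))⁻¹) (s : ℂ)
    (hs : 1 + κ / A < s.re) :
    F (A * s) = ∏' v, ∏ j, (1 - a v j * ((q v ^ A : ℝ) : ℂ) ^ (-s))⁻¹ := by
  have hA := E.Apos
  rw [hF (A * s)]
  · simp only [E.cpow_eq]
  · rw [Complex.re_ofReal_mul]
    have h1 : A * (1 + κ / A) = A + κ := by field_simp
    nlinarith

theorem EA.mero_scale (E : EA A κ q a) {σ₀ : ℝ}
    (hmer : ∀ x : ℝ, σ₀ ≤ x → x ≤ A + κ → MeromorphicAt F (x : ℂ)) (x : ℝ) (h1 : σ₀ / A ≤ x)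
    (h2 : x ≤ 1 + κ / A) : MeromorphicAt (fun s : ℂ => F (A * s)) (x : ℂ) := by
  have hA := E.Apos
  have h3 := hmer (A * x) (by
    rw [div_le_iff₀ hA] at h1
    linarith) (by
    have h4 : A * (1 + κ / A) = A + κ := by field_simp
    nlinarith)
  push_cast at h3
  exact Pool.Agent.N41.RM.mero_scale h3

/-- order and leading coefficient of the scaled function -/
theorem scale_back {A : ℝ} (hA : 0 < A) {σ₀ : ℝ} (hF : MeromorphicAt F (σ₀ : ℂ)) {m : ℤ} {l : ℝ}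
    (h1 : meromorphicOrderAt (fun s : ℂ => F (A * s)) ((σ₀ / A : ℝ) : ℂ) = m)
    (h2 : meromorphicTrailingCoeffAt (fun s : ℂ => F (A * s)) ((σ₀ / A : ℝ) : ℂ) = l) (hl : l ≠ 0) :
    meromorphicOrderAt F (σ₀ : ℂ) = m ∧ meromorphicTrailingCoeffAt F (σ₀ : ℂ) = (l / A ^ m : ℝ) := by
  have hAc : (A : ℂ) ≠ 0 := by exact_mod_cast hA.ne'
  have hx : (A : ℂ) * ((σ₀ / A : ℝ) : ℂ) = σ₀ := by
    push_cast
    field_simp
  have hmer : MeromorphicAt (fun s : ℂ => F (A * s)) ((σ₀ / A : ℝ) : ℂ) :=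
    Pool.Agent.N41.RM.mero_scale (by rw [hx]; exact hF)
  have h3 := lim_of_order hmer h1 h2
  have h4 : Tendsto (fun t : ℂ => t / A) (𝓝[≠] (σ₀ : ℂ)) (𝓝[≠] ((σ₀ / A : ℝ) : ℂ)) := by
    rw [tendsto_nhdsWithin_iff]
    constructor
    · have : Tendsto (fun t : ℂ => t / A) (𝓝 (σ₀ : ℂ)) (𝓝 ((σ₀ : ℂ) / A)) :=
        (continuous_id.div_const _).tendsto _
      push_cast
      exact this.mono_left nhdsWithin_le_nhds
    · filter_upwards [self_mem_nhdsWithin] with t ht h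
      apply ht
      have h' : t / A = ((σ₀ / A : ℝ) : ℂ) := h
      push_cast at h'
      exact (div_left_inj' hAc).1 h'
  have h5 := (h3.comp h4).mul_const ((A : ℂ) ^ (-m))
  have h6 : Tendsto (fun t : ℂ => (t - (σ₀ : ℂ)) ^ (-m) * F t) (𝓝[≠] (σ₀ : ℂ))
      (𝓝 ((l : ℂ) * (A : ℂ) ^ (-m))) := by
    refine h5.congr' ?_
    filter_upwards with t
    simp only [Function.comp_apply]
    have h7 : (A : ℂ) * (t / A) = t := by field_simp
    have h8 : t / A - ((σ₀ / A : ℝ) : ℂ) = (t - σ₀) / A := by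
      push_cast
      ring
    rw [h7, h8, div_zpow]
    have h9 : (A : ℂ) ^ (-m) ≠ 0 := zpow_ne_zero _ hAc
    field_simp
  have hne : (l : ℂ) * (A : ℂ) ^ (-m) ≠ 0 :=
    mul_ne_zero (by exact_mod_cast hl) (zpow_ne_zero _ hAc)
  obtain ⟨h7, h8⟩ := order_of_lim hF hne h6
  refine ⟨h7, ?_⟩
  rw [h8, zpow_neg]
  push_cast
  rw [div_eq_mul_inv]

theorem excess_scale {A : ℝ} (hA : 0 < A) (σ₀ : ℝ) :
    excess (fun s : ℂ => F (A * s)) (σ₀ / A) = excess F σ₀ := by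
  have hAc : (A : ℂ) ≠ 0 := by exact_mod_cast hA.ne'
  unfold excess
  have h2 : Ioi σ₀ = (fun x : ℝ => A * x) '' Ioi (σ₀ / A) := by
    rw [Set.image_mul_left_Ioi hA]
    congr 1
    field_simp
  rw [h2, finsum_mem_image (mul_right_injective₀ hA.ne').injOn]
  refine finsum_mem_congr rfl fun x _ => ?_
  rw [order_scale hAc]
  push_cast
  rfl

/-- **The law.** -/
theorem EA.law [Countable P] (E : EA A κ q a) {σ₀ : ℝ} (hσ : σ₀ ≤ A + κ)
    (hmer : ∀ x : ℝ, σ₀ ≤ x → x ≤ A + κ → MeromorphicAt F (x : ℂ))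
    (hF : ∀ s : ℂ, A + κ < s.re → F s = ∏' v, ∏ j, (1 - a v j * (q v : ℂ) ^ (-s))⁻¹)
    {γ : ℝ} (hγ : Real.pi / 2 < γ) :
    ∃ (m : ℤ) (l : ℝ), meromorphicOrderAt F (σ₀ : ℂ) = m ∧
      meromorphicTrailingCoeffAt F (σ₀ : ℂ) = l ∧ l ≠ 0 ∧
      (fun T : ℝ => (∑' x, aterm q a σ₀ γ T x) - (m * (Real.log T - Lam γ) - Real.log |l| +
        Real.pi * excess F σ₀ * Complex.I)) =O[atTop] (fun T : ℝ => 1 / T) ∧
      Tendsto (fun T : ℝ => Complex.exp (∑' x, aterm q a σ₀ γ T x) / (T : ℂ) ^ m) atTop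
        (𝓝 (Complex.exp (-(m * Lam γ)) / l)) := by
  have hA := E.Apos
  have hAc : (A : ℂ) ≠ 0 := by exact_mod_cast hA.ne'
  obtain ⟨m, l, h1, h2, h3, h4, h5⟩ := any_law E.eg (F := fun s : ℂ => F (A * s)) (σ₀ := σ₀ / A)
    (fun x h1 h2 => E.mero_scale hmer x h1 h2) (fun s hs => E.prod_eq hF s hs) hγ
  obtain ⟨h6, h7⟩ := scale_back hA (hmer σ₀ le_rfl hσ) h1 h2 h3
  have hl : l / A ^ m ≠ 0 := div_ne_zero h3 (zpow_ne_zero _ hA.ne')
  have hT : Tendsto (fun T : ℝ => A * T) atTop atTop := tendsto_id.const_mul_atTop hA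
  rw [excess_scale hA] at h4
  refine ⟨m, l / A ^ m, h6, h7, hl, ?_, ?_⟩
  · have h8 := h4.comp_tendsto hT
    have h9 : ((fun T : ℝ => 1 / T) ∘ fun T : ℝ => A * T) =O[atTop] fun T : ℝ => 1 / T := by
      refine Asymptotics.IsBigO.of_bound (1 / A) ?_
      filter_upwards [eventually_gt_atTop (0 : ℝ)] with T hT
      simp only [Function.comp_apply]
      rw [Real.norm_of_nonneg (by positivity), Real.norm_of_nonneg (by positivity)]
      rw [one_div_mul_one_div]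
    refine (h8.trans h9).congr' ?_ (Filter.EventuallyEq.refl _ _)
    filter_upwards [eventually_gt_atTop (0 : ℝ)] with T hT
    simp only [Function.comp_apply]
    have e1 : ∀ x, aterm (fun v => q v ^ A) a (σ₀ / A) γ (A * T) x = aterm q a σ₀ γ T x :=
      fun x => E.aterm_eq σ₀ γ T x
    simp only [e1]
    have e2 : Real.log |l / A ^ m| = Real.log |l| - m * Real.log A := by
      rw [abs_div, Real.log_div (abs_ne_zero.2 h3) (abs_ne_zero.2 (zpow_ne_zero _ hA.ne')),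
        abs_of_pos (zpow_pos hA m), Real.log_zpow]
    rw [e2, Real.log_mul hA.ne' hT.ne']
    push_cast
    ring
  · have h8 := (h5.comp hT).mul_const ((A : ℂ) ^ m)
    have e3 : Complex.exp (-(m * Lam γ)) / (l : ℂ) * (A : ℂ) ^ m =
        Complex.exp (-(m * Lam γ)) / ((l / A ^ m : ℝ) : ℂ) := by
      push_cast
      have : (A : ℂ) ^ m ≠ 0 := zpow_ne_zero _ hAc
      field_simp
    rw [e3] at h8
    refine h8.congr' ?_
    filter_upwards [eventually_gt_atTop (0 : ℝ)] with T hT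
    simp only [Function.comp_apply]
    have e1 : ∀ x, aterm (fun v => q v ^ A) a (σ₀ / A) γ (A * T) x = aterm q a σ₀ γ T x :=
      fun x => E.aterm_eq σ₀ γ T x
    simp only [e1]
    push_cast
    rw [mul_zpow]
    have h9 : (A : ℂ) ^ m ≠ 0 := zpow_ne_zero _ hAc
    have h10 : (T : ℂ) ^ m ≠ 0 := zpow_ne_zero _ (by exact_mod_cast hT.ne')
    field_simp

/-- finiteness on the ray -/
theorem EA.finite (E : EA A κ q a) {σ₀ : ℝ}
    (hmer : ∀ x : ℝ, σ₀ ≤ x → x ≤ A + κ → MeromorphicAt F (x : ℂ))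
    (hF : ∀ s : ℂ, A + κ < s.re → F s = ∏' v, ∏ j, (1 - a v j * (q v : ℂ) ^ (-s))⁻¹) :
    (∀ x : ℝ, σ₀ ≤ x → meromorphicOrderAt F (x : ℂ) ≠ ⊤) ∧
      {x : ℝ | σ₀ ≤ x ∧ meromorphicOrderAt F (x : ℂ) ≠ 0}.Finite := by
  have hA := E.Apos
  have hAc : (A : ℂ) ≠ 0 := by exact_mod_cast hA.ne'
  obtain ⟨h1, h2⟩ := any_finite E.eg (F := fun s : ℂ => F (A * s)) (σ₀ := σ₀ / A)
    (fun x h1 h2 => E.mero_scale hmer x h1 h2) (fun s hs => E.prod_eq hF s hs)
  have hord : ∀ x : ℝ, meromorphicOrderAt (fun s : ℂ => F (A * s)) ((x / A : ℝ) : ℂ) =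
      meromorphicOrderAt F (x : ℂ) := by
    intro x
    rw [order_scale hAc]
    congr 1
    push_cast
    field_simp
  constructor
  · intro x hx
    rw [← hord x]
    exact h1 (x / A) (div_le_div_of_nonneg_right hx hA.le)
  · refine (h2.image fun x : ℝ => A * x).subset ?_
    rintro x ⟨hx1, hx2⟩
    refine ⟨x / A, ⟨div_le_div_of_nonneg_right hx1 hA.le, ?_⟩, ?_⟩
    · rw [hord x]
      exact hx2
    · field_simp

theorem EA.summable (E : EA A κ q a) (σ₀ γ : ℝ) {T : ℝ} (hT : 0 < T) :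
    Summable fun x => ‖aterm q a σ₀ γ T x‖ := by
  have h1 := aterm_summable E.eg (σ₀ / A) γ (T := A * T) (mul_pos E.Apos hT)
  refine h1.congr fun x => ?_
  rw [E.aterm_eq]

/-! ### The part `k = 1` -/

theorem EA.cs_le (E : EA A κ q a) {σ₀ : ℝ} (hδ : A < 2 * (σ₀ - κ)) (x : P × ℕ) (hx : x.2 ≠ 0) :
    |cs q a σ₀ x| ≤ (N * (4 / 3) * q x.1 ^ (-(2 * (σ₀ - κ)))) * (3 / 4) ^ x.2 := by
  have hA := E.one_le
  have hq := E.pos x.1
  obtain ⟨n, hn⟩ := Nat.exists_eq_succ_of_ne_zero hx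
  have hc : |cq a x| ≤ N * (q x.1 ^ κ) ^ (x.2 + 1) := by
    have h0 : (0 : ℝ) ≤ x.2 := x.2.cast_nonneg
    unfold cq
    rw [abs_div, abs_of_pos (by positivity : (0 : ℝ) < (x.2 : ℝ) + 1), div_le_iff₀ (by positivity)]
    have h1 : |(∑ j, a x.1 j ^ (x.2 + 1)).re| ≤ N * (q x.1 ^ κ) ^ (x.2 + 1) := by
      refine (Complex.abs_re_le_norm _).trans ?_
      refine (norm_sum_le_of_le (n := fun _ => (q x.1 ^ κ) ^ (x.2 + 1)) _
        fun j _ => ?_).trans (le_of_eq ?_)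
      · rw [norm_pow]
        exact pow_le_pow_left₀ (norm_nonneg _) (E.ha x.1 j) _
      · rw [Finset.sum_const, Finset.card_univ, Fintype.card_fin, nsmul_eq_mul]
    refine h1.trans (le_mul_of_one_le_right (by positivity) (by linarith))
  have he : Real.exp (-(σ₀ * fq q x)) = (q x.1 ^ (-σ₀)) ^ (x.2 + 1) := by
    rw [← Real.rpow_natCast, ← Real.rpow_mul hq.le, Real.rpow_def_of_pos hq]
    unfold fq
    congr 1
    push_cast
    ring
  rw [cs_abs, he]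
  have h1 : (q x.1 ^ κ) ^ (x.2 + 1) * (q x.1 ^ (-σ₀)) ^ (x.2 + 1) =
      (q x.1 ^ (-(σ₀ - κ))) ^ (x.2 + 1) := by
    rw [← mul_pow, ← Real.rpow_add hq]
    congr 2
    ring
  have h2 : q x.1 ^ (-(σ₀ - κ)) ≤ 3 / 4 := by
    have h3 : q x.1 ^ (-(σ₀ - κ)) ≤ q x.1 ^ (-(1 / 2) : ℝ) :=
      Real.rpow_le_rpow_of_exponent_le (by linarith [E.two_le x.1]) (by linarith)
    have h4 : q x.1 ^ (-(1 / 2) : ℝ) ≤ (2 : ℝ) ^ (-(1 / 2) : ℝ) :=
      Real.rpow_le_rpow_of_nonpos (by norm_num) (E.two_le x.1) (by norm_num)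
    have h5 : (2 : ℝ) ^ (-(1 / 2) : ℝ) ≤ 3 / 4 := by
      rw [Real.rpow_neg (by norm_num), ← Real.sqrt_eq_rpow]
      rw [inv_le_comm₀ (by positivity) (by norm_num)]
      rw [Real.le_sqrt (by norm_num) (by norm_num)]
      norm_num
    exact h3.trans (h4.trans h5)
  have h3 : (q x.1 ^ (-(σ₀ - κ))) ^ (x.2 + 1) =
      q x.1 ^ (-(2 * (σ₀ - κ))) * (q x.1 ^ (-(σ₀ - κ))) ^ n := by
    have h4 : (q x.1 ^ (-(σ₀ - κ))) ^ 2 = q x.1 ^ (-(2 * (σ₀ - κ))) := by
      rw [← Real.rpow_natCast, ← Real.rpow_mul hq.le]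
      congr 1
      push_cast
      ring
    rw [hn, show n.succ + 1 = 2 + n by omega, pow_add, h4]
  have h4 : (q x.1 ^ (-(σ₀ - κ))) ^ n ≤ (3 / 4) ^ n := pow_le_pow_left₀ (by positivity) h2 n
  calc |cq a x| * (q x.1 ^ (-σ₀)) ^ (x.2 + 1)
      ≤ N * (q x.1 ^ κ) ^ (x.2 + 1) * (q x.1 ^ (-σ₀)) ^ (x.2 + 1) := by gcongr
    _ = N * (q x.1 ^ (-(2 * (σ₀ - κ))) * (q x.1 ^ (-(σ₀ - κ))) ^ n) := by
      rw [mul_assoc, h1, h3]
    _ ≤ N * (q x.1 ^ (-(2 * (σ₀ - κ))) * (3 / 4) ^ n) := by gcongr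
    _ = _ := by
      rw [hn, pow_succ]
      ring

theorem EA.summable2 (E : EA A κ q a) {σ₀ : ℝ} (hδ : A < 2 * (σ₀ - κ)) :
    Summable fun x : P × ℕ => if x.2 = 0 then (0 : ℝ) else |cs q a σ₀ x| := by
  have hg : Summable fun n : ℕ => (3 / 4 : ℝ) ^ n :=
    summable_geometric_of_lt_one (by norm_num) (by norm_num)
  have h1 := ((E.sum (2 * (σ₀ - κ)) hδ).mul_left
    ((N : ℝ) * (4 / 3))).mul_of_nonneg hg
    (fun v => by
      have := E.pos v
      show 0 ≤ (N : ℝ) * (4 / 3) * q v ^ (-(2 * (σ₀ - κ)))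
      positivity) (fun n => by positivity)
  refine Summable.of_nonneg_of_le (fun x => ?_) (fun x => ?_) h1
  · split_ifs
    · exact le_rfl
    · exact abs_nonneg _
  · split_ifs with h
    · have := E.pos x.1
      positivity
    · exact E.cs_le hδ x h

/-- the constant -/
noncomputable def kap2 (σ₀ : ℝ) (q : P → ℝ) (a : P → Fin N → ℂ) : ℝ :=
  ∑' x : P × ℕ, if x.2 = 0 then 0 else cs q a σ₀ x

theorem aterm_tendsto (σ₀ γ : ℝ) (x : P × ℕ) :
    Tendsto (fun T : ℝ => aterm q a σ₀ γ T x) atTop (𝓝 (-(cs q a σ₀ x : ℂ))) := by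
  have h0 : Tendsto (fun T : ℝ => fq q x / T) atTop (𝓝 0) :=
    tendsto_const_nhds.div_atTop tendsto_id
  have h1 : Tendsto (fun T : ℝ => om (fq q x / T)) atTop (𝓝 1) := by
    unfold om
    have h2 : ContinuousAt (fun v : ℝ => (Real.Gamma (1 + v))⁻¹) 0 := by
      have h3 : ContinuousAt Real.Gamma (1 + 0) := by
        refine (Real.differentiableAt_Gamma fun m => ?_).continuousAt
        have : (0 : ℝ) ≤ m := m.cast_nonneg
        linarith
      have h4 : ContinuousAt (fun v : ℝ => Real.Gamma (1 + v)) 0 :=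
        ContinuousAt.comp (g := Real.Gamma) (f := fun v : ℝ => 1 + v) h3 (by fun_prop)
      refine h4.inv₀ ?_
      simp
    have h3 := h2.tendsto.comp h0
    simpa [Function.comp_def] using h3
  have h2 : Tendsto (fun T : ℝ => Complex.exp ((γ * (fq q x / T) : ℝ) * Complex.I)) atTop
      (𝓝 1) := by
    have h3 : ContinuousAt (fun v : ℝ => Complex.exp ((γ * v : ℝ) * Complex.I)) 0 := by fun_prop
    have h4 := h3.tendsto.comp h0
    simpa [Function.comp_def] using h4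
  have h3 : Tendsto (fun T : ℝ => aterm q a σ₀ γ T x) atTop
      (𝓝 (-((cs q a σ₀ x : ℂ) * 1 * ((1 : ℝ) : ℂ)))) :=
    ((h2.const_mul _).mul ((Complex.continuous_ofReal.tendsto 1).comp h1)).neg
  rw [Complex.ofReal_one, mul_one, mul_one] at h3
  exact h3

theorem EA.aterm_le (E : EA A κ q a) (σ₀ γ : ℝ) {T : ℝ} (hT : 0 < T) (x : P × ℕ) :
    ‖aterm q a σ₀ γ T x‖ ≤ (Real.exp 1 + 1) * |cs q a σ₀ x| := by
  unfold aterm
  rw [norm_neg, norm_mul, norm_mul, Complex.norm_exp_ofReal_mul_I, mul_one,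
    Complex.norm_real, Complex.norm_real, Real.norm_eq_abs, Real.norm_eq_abs]
  have hfq : 0 ≤ fq q x := by
    unfold fq
    have := Real.log_nonneg (by linarith [E.two_le x.1] : 1 ≤ q x.1)
    positivity
  have hv : 0 ≤ fq q x / T := div_nonneg hfq hT.le
  have h1 := Pool.Agent.W189.ML.om_le_const hv
  have h3 : 0 ≤ om (fq q x / T) := by
    unfold om
    exact inv_nonneg.2 (Real.Gamma_nonneg_of_nonneg (by linarith))
  rw [abs_of_nonneg h3, mul_comm]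
  gcongr

/-- the part `k ≥ 2` converges -/
theorem EA.high_tendsto (E : EA A κ q a) {σ₀ : ℝ} (hδ : A < 2 * (σ₀ - κ)) (γ : ℝ) :
    Tendsto (fun T : ℝ => ∑' x : P × ℕ, if x.2 = 0 then 0 else aterm q a σ₀ γ T x) atTop
      (𝓝 (-(kap2 σ₀ q a : ℂ))) := by
  have h1 : (-(kap2 σ₀ q a : ℂ)) =
      ∑' x : P × ℕ, (if x.2 = 0 then (0 : ℂ) else -(cs q a σ₀ x : ℂ)) := by
    unfold kap2
    rw [Complex.ofReal_tsum, ← tsum_neg]
    refine tsum_congr fun x => ?_
    split_ifs <;> simp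
  rw [h1]
  refine tendsto_tsum_of_dominated_convergence
    (bound := fun x : P × ℕ => (Real.exp 1 + 1) * if x.2 = 0 then (0 : ℝ) else |cs q a σ₀ x|)
    ((E.summable2 hδ).mul_left _) (fun x => ?_) ?_
  · by_cases hx : x.2 = 0
    · simp only [if_pos hx]
      exact tendsto_const_nhds
    · simp only [if_neg hx]
      exact aterm_tendsto σ₀ γ x
  · filter_upwards [eventually_gt_atTop (0 : ℝ)] with T hT x
    by_cases hx : x.2 = 0
    · simp only [if_pos hx]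
      simp
    · simp only [if_neg hx]
      exact E.aterm_le σ₀ γ hT x

theorem EA.split (E : EA A κ q a) (σ₀ γ : ℝ) {T : ℝ} (hT : 0 < T) :
    (∑' x, aterm q a σ₀ γ T x) = (∑' v, aterm q a σ₀ γ T (v, 0)) +
      ∑' x : P × ℕ, if x.2 = 0 then 0 else aterm q a σ₀ γ T x := by
  have h := E.summable σ₀ γ hT
  have h1 : Summable fun x : P × ℕ => if x.2 = 0 then aterm q a σ₀ γ T x else 0 := by
    refine Summable.of_norm_bounded h fun x => ?_
    split_ifs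
    · exact le_rfl
    · rw [norm_zero]; exact norm_nonneg _
  have h2 : Summable fun x : P × ℕ => if x.2 = 0 then 0 else aterm q a σ₀ γ T x := by
    refine Summable.of_norm_bounded h fun x => ?_
    split_ifs
    · rw [norm_zero]; exact norm_nonneg _
    · exact le_rfl
  have h3 : (∑' v, aterm q a σ₀ γ T (v, 0)) =
      ∑' x : P × ℕ, if x.2 = 0 then aterm q a σ₀ γ T x else 0 := by
    have hinj : Function.Injective fun v : P => ((v, 0) : P × ℕ) := fun v w h =>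
      (Prod.ext_iff.1 h).1
    rw [← hinj.tsum_eq (f := fun x : P × ℕ => if x.2 = 0 then aterm q a σ₀ γ T x else 0)]
    · rfl
    · rintro ⟨v, n⟩ hx
      rw [Function.mem_support] at hx
      by_cases hn : n = 0
      · subst hn
        exact ⟨v, rfl⟩
      · simp [hn] at hx
  rw [h3, ← h1.tsum_add h2]
  refine tsum_congr fun x => ?_
  split_ifs <;> simp

/-- the law for the part `k = 1` -/
theorem EA.one_law (E : EA A κ q a) {σ₀ : ℝ} (hδ : A < 2 * (σ₀ - κ)) {γ : ℝ} {M : ℝ → ℂ}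
    (h : Tendsto (fun T : ℝ => (∑' x, aterm q a σ₀ γ T x) - M T) atTop (𝓝 0)) :
    Tendsto (fun T : ℝ => (∑' v, aterm q a σ₀ γ T (v, 0)) - (M T + kap2 σ₀ q a)) atTop (𝓝 0) := by
  have h1 := h.sub (E.high_tendsto hδ γ)
  have h2 := h1.sub_const (kap2 σ₀ q a : ℂ)
  rw [zero_sub, neg_neg, sub_self] at h2
  refine h2.congr' ?_
  filter_upwards [eventually_gt_atTop (0 : ℝ)] with T hT
  rw [E.split σ₀ γ hT]
  ring

end Pool.Agent.Run7.h453.FG
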