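import Pool.Agent.R410.BS.Cod2
import Pool.Agent.H126R3.SumQ

/-! The number of the closed points of a finitely generated domain over the integers, in every
characteristic: `∑ q_y^{-σ}` converges for `σ > dim`. -/

set_option autoImplicit false

namespace Pool.Agent.Run7.h453.FG

open Polynomial
open Pool.Agent.TH958.An
open Pool.Agent.H126R3 (Qc Qc_pos Qc_rpow summable_Q pair_unique)
open Pool.Agent.R410.BS (fib_count hom_le)

theorem exists_F (c : Nat.Primes × ℕ) : ∃ (F : Type) (_ : Field F) (_ : Fintype F),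
    Fintype.card F = Qc c := by
  obtain ⟨⟨p, hp⟩, k⟩ := c
  have : Fact p.Prime := ⟨hp⟩
  have : Finite (GaloisField p (k + 1)) := inferInstance
  have i := Fintype.ofFinite (GaloisField p (k + 1))
  refine ⟨GaloisField p (k + 1), inferInstance, i, ?_⟩
  rw [← Nat.card_eq_fintype_card]
  exact GaloisField.card p (k + 1) (by omega)

section
variable {R : Type} [CommRing R] [hR : Algebra.FiniteType ℤ R]

/-- the closed points with residue field of `Qc c` elements -/
abbrev Fb (R : Type) [CommRing R] [Algebra.FiniteType ℤ R] (c : Nat.Primes × ℕ) : Type :=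
  {y : Pt R // pk y = c}

theorem exists_hom (c : Nat.Primes × ℕ) (F : Type) [Field F] [Fintype F]
    (hF : Fintype.card F = (c.1 : ℕ) ^ (c.2 + 1)) (y : Fb R c) :
    ∃ φ : R →+* F, ptOf φ = y.1 := by
  have h1 := card_fiber y.1 F c.1 c.2 hF y.2
  have h2 : 0 < Nat.card {φ : R →+* F // ptOf φ = y.1} := by omega
  obtain ⟨φ⟩ := (Nat.card_pos_iff.1 h2).1
  exact ⟨φ.1, φ.2⟩

theorem fb_finite (c : Nat.Primes × ℕ) : Finite (Fb R c) ∧
    ∃ (F : Type) (_ : Field F) (_ : Fintype F), Fintype.card F = Qc c ∧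
      Nat.card (Fb R c) ≤ Nat.card (R →+* F) := by
  obtain ⟨F, iF, iF', hF⟩ := exists_F c
  choose f hf using exists_hom (R := R) c F hF
  have hinj : Function.Injective f := by
    intro y z h
    apply Subtype.ext
    rw [← hf y, ← hf z, h]
  exact ⟨Finite.of_injective f hinj, F, iF, iF', hF, Nat.card_le_card_of_injective f hinj⟩

theorem summable_of_fib {b : Nat.Primes × ℕ → ℝ} {σ : ℝ}
    (hb : ∀ c, (Nat.card (Fb R c) : ℝ) ≤ b c)
    (hs : Summable fun c => b c * (Qc c : ℝ) ^ (-σ)) :
    Summable fun y : Pt R => (qy y : ℝ) ^ (-σ) := by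
  classical
  rw [← (Equiv.sigmaFiberEquiv (pk (R := R))).summable_iff]
  have hfin : ∀ c, Finite (Fb R c) := fun c => (fb_finite c).1
  refine (summable_sigma_of_nonneg
    (f := (fun y : Pt R => (qy y : ℝ) ^ (-σ)) ∘ (Equiv.sigmaFiberEquiv (pk (R := R))))
    (fun x => Real.rpow_nonneg (Nat.cast_nonneg _) _)).2 ⟨fun c => ?_, ?_⟩
  · have := hfin c
    let _ := Fintype.ofFinite (Fb R c)
    exact (hasSum_fintype _).summable
  · refine Summable.of_nonneg_of_le
      (fun c => tsum_nonneg fun x => Real.rpow_nonneg (Nat.cast_nonneg _) _) (fun c => ?_) hs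
    have := hfin c
    let _ := Fintype.ofFinite (Fb R c)
    rw [tsum_fintype]
    have h1 : ∀ x : Fb R c, ((fun y : Pt R => (qy y : ℝ) ^ (-σ)) ∘
        (Equiv.sigmaFiberEquiv (pk (R := R)))) ⟨c, x⟩ = (Qc c : ℝ) ^ (-σ) := by
      intro x
      show (qy x.1 : ℝ) ^ (-σ) = _
      rw [qy_eq, x.2]
      rfl
    rw [Finset.sum_congr rfl fun x _ => h1 x, Finset.sum_const, nsmul_eq_mul, Finset.card_univ,
      ← Nat.card_eq_fintype_card]
    exact mul_le_mul_of_nonneg_right (hb c) (Real.rpow_nonneg (Nat.cast_nonneg _) _)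

theorem countable_of_fib : Countable (Pt R) := by
  have hfin : ∀ c, Finite (Fb R c) := fun c => (fb_finite c).1
  exact (Equiv.sigmaFiberEquiv (pk (R := R))).symm.injective.countable

end

section zero
variable {R K : Type} [CommRing R] [IsDomain R] [Algebra.FiniteType ℤ R] [Field K]
  [Algebra R K]

/-- **Characteristic zero.** -/
theorem sum_zero [CharZero K] (hinj : Function.Injective (algebraMap R K)) {e : ℕ}
    (he : Algebra.trdeg ℚ K ≤ e) {σ : ℝ} (hσ : (e : ℝ) + 1 < σ) :
    Summable fun y : Pt R => (qy y : ℝ) ^ (-σ) := by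
  obtain ⟨C, hC, h⟩ := hom_le hinj he
  refine summable_of_fib (b := fun c => C * (Qc c : ℝ) ^ e) (fun c => ?_) ?_
  · obtain ⟨-, F, iF, iF', hF, hle⟩ := fb_finite (R := R) c
    have h1 := h F
    rw [Nat.card_eq_fintype_card (α := F), hF] at h1
    exact le_trans (by exact_mod_cast hle) h1
  · have h1 := (summable_Q (σ - e) (by linarith) 0 (by push_cast; linarith)).mul_left C
    refine h1.congr fun c => ?_
    have hQ : (0 : ℝ) < (Qc c : ℝ) := by exact_mod_cast Qc_pos c
    rw [if_pos (Nat.zero_le _), mul_assoc, ← Real.rpow_natCast, ← Real.rpow_add hQ]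
    congr 2
    ring

end zero

section p
variable {R K : Type} [CommRing R] [IsDomain R] [Algebra.FiniteType ℤ R] [Field K]
  [Algebra R K]

/-- the number of points in characteristic `p` -/
theorem hom_le_p (p : ℕ) [hp : Fact p.Prime] [Algebra (ZMod p) K]
    (hinj : Function.Injective (algebraMap R K)) {e : ℕ} (he : Algebra.trdeg (ZMod p) K ≤ e) :
    ∃ C : ℝ, 0 ≤ C ∧ ∀ (F : Type) [Field F] [Finite F],
      (Nat.card (R →+* F) : ℝ) ≤ C * (Nat.card F : ℝ) ^ e ∧ ((p : F) ≠ 0 → Nat.card (R →+* F) = 0) := by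
  classical
  have hpK : (p : K) = 0 := by
    have h1 : algebraMap (ZMod p) K ((p : ℕ) : ZMod p) = 0 := by
      rw [CharP.cast_eq_zero, map_zero]
    rwa [map_natCast] at h1
  have hpR : (p : R) = 0 := by
    apply hinj
    rw [map_natCast, hpK, map_zero]
  have hchar : CharP R p := (CharP.charP_iff_prime_eq_zero hp.1).2 hpR
  let _ : Algebra (ZMod p) R := ZMod.algebra R p
  have hft : Algebra.FiniteType (ZMod p) R := by
    have h1 : Algebra.FiniteType ℤ R := inferInstance
    have : IsScalarTower ℤ (ZMod p) R := IsScalarTower.of_algebraMap_eq' (RingHom.ext_int _ _)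
    exact Algebra.FiniteType.of_restrictScalars_finiteType ℤ (ZMod p) R
  obtain ⟨s, g, hginj, hgint⟩ := exists_integral_inj_algHom_of_fg (ZMod p) R
  have hs : s ≤ e := by
    have h1 : AlgebraicIndependent (ZMod p) fun i : Fin s => g (MvPolynomial.X i) := by
      have h2 := (MvPolynomial.algebraicIndependent_X (Fin s) (ZMod p)).map' (f := g) hginj
      exact h2
    have _ : IsScalarTower (ZMod p) R K := IsScalarTower.of_algebraMap_eq'
      (Subsingleton.elim _ _)
    have h2 : AlgebraicIndependent (ZMod p) ((IsScalarTower.toAlgHom (ZMod p) R K) ∘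
        fun i : Fin s => g (MvPolynomial.X i)) := h1.map' hinj
    have h3 := h2.lift_cardinalMk_le_trdeg
    have h5 : ((s : ℕ) : Cardinal.{0}) ≤ Algebra.trdeg (ZMod p) K := by simpa using h3
    exact_mod_cast h5.trans he
  obtain ⟨G, hG⟩ := hft.out
  let S := MvPolynomial (Fin s) (ZMod p)
  let _ : Algebra S R := (g : MvPolynomial (Fin s) (ZMod p) →+* R).toAlgebra
  choose Q hQm hQ0 using fun y : R => hgint y
  refine ⟨(∏ y ∈ G, (Q y).natDegree : ℕ), Nat.cast_nonneg _, fun F _ _ => ⟨?_, ?_⟩⟩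
  · have hinjS : Function.Injective fun (ψ : S →+* F) (i : Fin s) => ψ (MvPolynomial.X i) := by
      intro ψ ψ' h
      apply MvPolynomial.ringHom_ext
      · intro c
        have : (ψ.comp MvPolynomial.C : ZMod p →+* F) = ψ'.comp MvPolynomial.C :=
          Subsingleton.elim _ _
        exact congrArg (fun f : ZMod p →+* F => f c) this
      · intro i
        exact congrFun h i
    have hfinS : Finite (S →+* F) := Finite.of_injective _ hinjS
    have hcardS : Nat.card (S →+* F) ≤ Nat.card F ^ s := by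
      refine (Nat.card_le_card_of_injective _ hinjS).trans (le_of_eq ?_)
      rw [Nat.card_fun, Nat.card_fin]
    have hGS : Algebra.adjoin S (G : Set R) = ⊤ := by
      rw [eq_top_iff]
      intro y _
      have hy : y ∈ Algebra.adjoin (ZMod p) (G : Set R) := by rw [hG]; trivial
      induction hy using Algebra.adjoin_induction with
      | mem y hy => exact Algebra.subset_adjoin hy
      | algebraMap c =>
        have : algebraMap (ZMod p) R c = algebraMap S R (MvPolynomial.C c) := (g.commutes c).symm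
        rw [this]
        exact Subalgebra.algebraMap_mem _ _
      | add x y _ _ h1 h2 => exact add_mem (h1 trivial) (h2 trivial)
      | mul x y _ _ h1 h2 => exact mul_mem (h1 trivial) (h2 trivial)
    have h1 := fib_count (F := F) G hGS Q (fun y _ => hQ0 y) Set.univ
      (fun ψ _ y _ => ((hQm y).map ψ).ne_zero)
    have h2 : Nat.card {φ : R →+* F // φ.comp (algebraMap S R) ∈ (Set.univ : Set (S →+* F))} =
        Nat.card (R →+* F) := Nat.card_congr (Equiv.subtypeUnivEquiv fun _ => Set.mem_univ _)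
    have h3 : Nat.card (Set.univ : Set (S →+* F)) = Nat.card (S →+* F) :=
      Nat.card_congr (Equiv.Set.univ _)
    rw [h2, h3] at h1
    have h5 : Nat.card (R →+* F) ≤ Nat.card F ^ s * ∏ y ∈ G, (Q y).natDegree :=
      h1.trans (Nat.mul_le_mul_right _ hcardS)
    have h6 : (Nat.card (R →+* F) : ℝ) ≤ (Nat.card F : ℝ) ^ s * (∏ y ∈ G, (Q y).natDegree : ℕ) := by
      exact_mod_cast h5
    have hq1 : (1 : ℝ) ≤ Nat.card F := by exact_mod_cast Nat.card_pos
    have hqs : (Nat.card F : ℝ) ^ s ≤ (Nat.card F : ℝ) ^ e := pow_le_pow_right₀ hq1 hs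
    refine h6.trans ?_
    rw [mul_comm]
    exact mul_le_mul_of_nonneg_left hqs (Nat.cast_nonneg _)
  · intro hF
    have : IsEmpty (R →+* F) := by
      refine ⟨fun φ => hF ?_⟩
      rw [← map_natCast φ, hpR, map_zero]
    exact Nat.card_of_isEmpty

/-- **Characteristic `p`.** -/
theorem sum_p (p : ℕ) [hp : Fact p.Prime] [Algebra (ZMod p) K]
    (hinj : Function.Injective (algebraMap R K)) {e : ℕ} (he : Algebra.trdeg (ZMod p) K ≤ e) {σ : ℝ}
    (hσ : (e : ℝ) < σ) : Summable fun y : Pt R => (qy y : ℝ) ^ (-σ) := by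
  classical
  obtain ⟨C, hC, h⟩ := hom_le_p p hinj he
  let P : Nat.Primes := ⟨p, hp.1⟩
  refine summable_of_fib (b := fun c => if c.1 = P then C * (Qc c : ℝ) ^ e else 0) (fun c => ?_) ?_
  · obtain ⟨-, F, iF, iF', hF, hle⟩ := fb_finite (R := R) c
    have h1 := (h F).1
    rw [Nat.card_eq_fintype_card (α := F), hF] at h1
    by_cases hc : c.1 = P
    · simp only [if_pos hc]
      exact le_trans (by exact_mod_cast hle) h1
    · simp only [if_neg hc]
      have h2 : (p : F) ≠ 0 := by
        intro h0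
        have hcf : Fact (c.1 : ℕ).Prime := ⟨c.1.2⟩
        have h3 : CharP F (c.1 : ℕ) := charP_of_card_eq_prime_pow (by rw [hF]; rfl)
        have h4 : (c.1 : ℕ) ∣ p := (CharP.cast_eq_zero_iff F (c.1 : ℕ) p).1 h0
        exact hc (Subtype.ext ((Nat.prime_dvd_prime_iff_eq c.1.2 hp.1).1 h4))
      have h3 := (h F).2 h2
      rw [h3, Nat.le_zero] at hle
      rw [hle]
      simp
  · have hinj2 : Function.Injective fun k : ℕ => ((P, k) : Nat.Primes × ℕ) := by
      intro a b h
      exact (Prod.ext_iff.1 h).2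
    rw [← hinj2.summable_iff]
    · have hp1 : (1 : ℝ) < p := by exact_mod_cast hp.1.one_lt
      have hlt : (p : ℝ) ^ ((e : ℝ) - σ) < 1 :=
        Real.rpow_lt_one_of_one_lt_of_neg hp1 (by linarith)
      have h1 : Summable fun k : ℕ => C * (p : ℝ) ^ ((e : ℝ) - σ) * ((p : ℝ) ^ ((e : ℝ) - σ)) ^ k :=
        (summable_geometric_of_lt_one (by positivity) hlt).mul_left _
      refine h1.congr fun k => ?_
      have hQ : (0 : ℝ) < (Qc (P, k) : ℝ) := by exact_mod_cast Qc_pos (P, k)
      show C * (p : ℝ) ^ ((e : ℝ) - σ) * ((p : ℝ) ^ ((e : ℝ) - σ)) ^ k =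
        (if P = P then C * (Qc (P, k) : ℝ) ^ e else 0) * (Qc (P, k) : ℝ) ^ (-σ)
      rw [if_pos rfl, mul_assoc, mul_assoc, ← Real.rpow_natCast (Qc (P, k) : ℝ) e,
        ← Real.rpow_add hQ, ← pow_succ', ← sub_eq_add_neg, Qc_rpow,
        ← Real.rpow_natCast ((p : ℝ) ^ ((e : ℝ) - σ)), ← Real.rpow_mul (by positivity)]
      congr 2
      ring
    · rintro ⟨c, k⟩ hc
      have h2 : c ≠ P := by
        intro h
        exact hc ⟨k, by rw [h]⟩
      show (if c = P then _ else (0 : ℝ)) * _ = 0
      rw [if_neg h2, zero_mul]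

end p

end Pool.Agent.Run7.h453.FG
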